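import Pool.Agent.H.MP_0ac5c2_an.B

set_option autoImplicit false

namespace Pool.Agent.H.MP_f70052_an

open Matrix Polynomial Set
open Pool.Agent.H.MP_0ac5c2_an (ell ell_diag MB cd_star)

section gen

variable {ι κ : Type} [Fintype ι] [DecidableEq ι] [Fintype κ] [DecidableEq κ]

noncomputable def rp (X Y : Matrix ι ι ℂ) : Matrix ι ι ℂ := (1 / 2 : ℂ) • (X + Y)
noncomputable def ip (X Y : Matrix ι ι ℂ) : Matrix ι ι ℂ := (-Complex.I / 2 : ℂ) • (X - Y)

noncomputable def inv (X Y : Matrix ι ι ℂ) (p q : ℂ[X]) : ℂ :=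
  trace (aeval (rp X Y) p * ip X Y * aeval (rp X Y) q * ip X Y)

def cj (R : Matrix κ ι ℂ) (S : Matrix ι κ ℂ) (h1 : R * S = 1) (h2 : S * R = 1) :
    Matrix ι ι ℂ →ₐ[ℂ] Matrix κ κ ℂ where
  toFun Z := R * Z * S
  map_one' := by rw [Matrix.mul_one, h1]
  map_mul' Z W := by
    calc R * (Z * W) * S = R * Z * (S * R) * W * S := by
          rw [h2, Matrix.mul_one, Matrix.mul_assoc R Z W]
      _ = R * Z * S * (R * W * S) := by simp only [Matrix.mul_assoc]
  map_zero' := by simp
  map_add' Z W := by rw [Matrix.mul_add, Matrix.add_mul]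
  commutes' c := by
    simp only [Algebra.algebraMap_eq_smul_one, Matrix.mul_smul, Matrix.smul_mul, Matrix.mul_one, h1]

theorem inv_conj (R : Matrix κ ι ℂ) (S : Matrix ι κ ℂ) (h1 : R * S = 1) (h2 : S * R = 1)
    (X Y : Matrix ι ι ℂ) (p q : ℂ[X]) :
    inv (R * X * S) (R * Y * S) p q = inv X Y p q := by
  set φ := cj R S h1 h2 with hφ
  have e : ∀ Z, R * Z * S = φ Z := fun _ => rfl
  have a1 : rp (φ X) (φ Y) = φ (rp X Y) := by simp only [rp, map_smul, map_add]
  have a2 : ip (φ X) (φ Y) = φ (ip X Y) := by simp only [ip, map_smul, map_sub]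
  unfold inv
  rw [e, e, a1, a2, aeval_algHom_apply φ, aeval_algHom_apply φ, ← map_mul, ← map_mul, ← map_mul,
    ← e, trace_mul_comm, ← Matrix.mul_assoc, h2, Matrix.one_mul]

variable {E : Type} [NormedAddCommGroup E] [NormedSpace ℝ E]

def CD (F : E → Matrix ι ι ℂ) (x : E) : Prop := ∀ i j, ContDiffAt ℝ 1 (fun t => F t i j) x

theorem CD.mul {F G : E → Matrix ι ι ℂ} {x : E} (hF : CD F x) (hG : CD G x) :
    CD (fun t => F t * G t) x := by
  intro i j
  simp only [mul_apply]
  exact ContDiffAt.sum fun l _ => (hF i l).mul (hG l j)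

theorem CD.aeval {F : E → Matrix ι ι ℂ} {x : E} (hF : CD F x) (p : ℂ[X]) :
    CD (fun t => aeval (F t) p) x := by
  induction p using Polynomial.induction_on with
  | C a => intro i j; simp only [aeval_C]; exact contDiffAt_const
  | add p q hp hq => intro i j; simp only [map_add, Matrix.add_apply]; exact (hp i j).add (hq i j)
  | monomial m a h =>
    have := h.mul hF
    simpa only [pow_succ, ← mul_assoc, map_mul, aeval_X] using this

theorem CD.det {F : E → Matrix ι ι ℂ} {x : E} (hF : CD F x) :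
    ContDiffAt ℝ 1 (fun t => (F t).det) x := by
  simp only [det_apply']
  exact ContDiffAt.sum fun σ _ => contDiffAt_const.mul (contDiffAt_prod fun i _ => hF _ _)

theorem CD.minv {F : E → Matrix ι ι ℂ} {x : E} (hF : CD F x) (h : (F x).det ≠ 0) :
    CD (fun t => (F t)⁻¹) x := by
  intro i j
  simp only [Matrix.inv_def, Ring.inverse_eq_inv', Matrix.smul_apply, smul_eq_mul, adjugate_apply]
  refine (hF.det.inv h).mul (CD.det fun a b => ?_)
  simp only [updateRow_apply]
  split_ifs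
  · exact contDiffAt_const
  · exact hF a b

theorem CD.inv {F G : E → Matrix ι ι ℂ} {x : E} (hF : CD F x) (hG : CD G x) (p q : ℂ[X]) :
    ContDiffAt ℝ 1 (fun t => inv (F t) (G t) p q) x := by
  have h1 : CD (fun t => rp (F t) (G t)) x := by
    intro i j
    simp only [rp, Matrix.smul_apply, Matrix.add_apply, smul_eq_mul]
    exact contDiffAt_const.mul ((hF i j).add (hG i j))
  have h2 : CD (fun t => ip (F t) (G t)) x := by
    intro i j
    simp only [ip, Matrix.smul_apply, Matrix.sub_apply, smul_eq_mul]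
    exact contDiffAt_const.mul ((hF i j).sub (hG i j))
  have h3 := (((h1.aeval p).mul h2).mul (h1.aeval q)).mul h2
  unfold Pool.Agent.H.MP_f70052_an.inv trace
  exact ContDiffAt.sum fun l _ => h3 l l

end gen

theorem inv_MB {n : ℕ} (B : Fin n → Fin n → ℝ) (hB : ∀ i j, B i j = B j i) (a b : Fin n) :
    inv (fromBlocks (MB B) 0 0 (MB B)ᵀ) (fromBlocks (MB B) 0 0 (MB B)ᵀ)ᴴ (ell a) (ell b) =
      2 * (B a b : ℂ) ^ 2 := by
  have h1 : rp (fromBlocks (MB B) 0 0 (MB B)ᵀ) (fromBlocks (MB B) 0 0 (MB B)ᵀ)ᴴ =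
      diagonal (Sum.elim (fun c : Fin n => ((c : ℕ) : ℂ)) (fun c : Fin n => ((c : ℕ) : ℂ))) := by
    ext (i | i) (j | j)
    · by_cases h : i = j
      · subst h
        simp [rp, MB]
        ring
      · simp [rp, MB, h, Ne.symm h, hB j i]
    · simp [rp]
    · simp [rp]
    · by_cases h : i = j
      · subst h
        simp [rp, MB]
        ring
      · simp [rp, MB, h, Ne.symm h, hB j i]
  have h2 : ip (fromBlocks (MB B) 0 0 (MB B)ᵀ) (fromBlocks (MB B) 0 0 (MB B)ᵀ)ᴴ =
      fromBlocks (of fun i j => (B i j : ℂ)) 0 0 (of fun i j => (B i j : ℂ)) := by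
    ext (i | i) (j | j)
    · by_cases h : i = j
      · subst h
        simp [ip, MB]
        linear_combination (-(B i i : ℂ)) * Complex.I_mul_I
      · simp [ip, MB, h, Ne.symm h, hB j i]
        linear_combination (-(B i j : ℂ)) * Complex.I_mul_I
    · simp [ip]
    · simp [ip]
    · by_cases h : i = j
      · subst h
        simp [ip, MB]
        linear_combination (-(B i i : ℂ)) * Complex.I_mul_I
      · simp [ip, MB, h, Ne.symm h, hB j i]
        linear_combination (-(B i j : ℂ)) * Complex.I_mul_I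
  have h3 : ∀ a : Fin n, aeval (diagonal (Sum.elim (fun c : Fin n => ((c : ℕ) : ℂ))
      (fun c : Fin n => ((c : ℕ) : ℂ)))) (ell a) =
      fromBlocks (diagonal (Pi.single a 1)) 0 0 (diagonal (Pi.single a 1)) := by
    intro a
    have e1 := aeval_algHom_apply (diagonalAlgHom ℂ (n := Fin n ⊕ Fin n) (α := ℂ))
      (Sum.elim (fun c : Fin n => ((c : ℕ) : ℂ)) (fun c : Fin n => ((c : ℕ) : ℂ))) (ell a)
    have e2 := aeval_algHom_apply (diagonalAlgHom ℂ (n := Fin n) (α := ℂ))
      (fun c : Fin n => ((c : ℕ) : ℂ)) (ell a)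
    simp only [diagonalAlgHom_apply] at e1 e2
    rw [ell_diag] at e2
    have e3 := diagonal_injective e2
    rw [e1, fromBlocks_diagonal, e3]
    congr 1
    funext c
    rcases c with c | c <;> simp only [aeval_fn_apply, Sum.elim_inl, Sum.elim_inr]
  unfold inv
  rw [h1, h2, h3, h3]
  simp only [fromBlocks_multiply, Matrix.mul_zero, Matrix.zero_mul, add_zero, zero_add]
  simp only [trace, diag_apply, Fintype.sum_sum_type, fromBlocks_apply₁₁, fromBlocks_apply₂₂,
    mul_apply, diagonal_apply, of_apply, Pi.single_apply]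
  simp [hB b a, sq]
  ring

abbrev Ix (r : ℕ) (m : Fin r → ℕ) := Σ i : Fin r, Fin (m i)

def toe {r : ℕ} {m : Fin r → ℕ} (t : Fin 2 → Ix r m → ℂ) : Matrix (Ix r m) (Ix r m) ℂ :=
  blockDiagonal' fun i => of fun j k : Fin (m i) =>
    if (j : ℕ) ≤ k then t 0 ⟨i, ⟨k - j, lt_of_le_of_lt (Nat.sub_le _ _) k.2⟩⟩
    else t 1 ⟨i, ⟨j - k, lt_of_le_of_lt (Nat.sub_le _ _) j.2⟩⟩

theorem toe_ex {r : ℕ} {m : Fin r → ℕ} (c : Fin r → ℂ → ℂ) : ∃ t : Fin 2 → Ix r m → ℂ,
    toe t = blockDiagonal' fun i => of fun j k : Fin (m i) => c i (((k : ℕ) : ℂ) - (j : ℕ)) := by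
  refine ⟨![fun z => c z.1 (z.2 : ℕ), fun z => c z.1 (-(z.2 : ℕ))], ?_⟩
  unfold toe
  congr 1
  funext i
  ext j k
  simp only [of_apply]
  split_ifs with h
  · simp [Nat.cast_sub h]
  · simp [Nat.cast_sub (not_le.1 h).le]

abbrev Par (r : ℕ) (m : Fin r → ℕ) := (Fin 2 → Ix r m → ℂ) × (Fin 2 → Ix r m → ℂ)

theorem cd_toe {r : ℕ} {m : Fin r → ℕ} {E : Type} [NormedAddCommGroup E] [NormedSpace ℝ E]
    {f : E → Fin 2 → Ix r m → ℂ} {x : E} (hf : ∀ a z, ContDiffAt ℝ 1 (fun t => f t a z) x) :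
    CD (fun t => toe (f t)) x := by
  rintro ⟨i, j⟩ ⟨i', k⟩
  by_cases h : i = i'
  · subst h
    simp only [toe, blockDiagonal'_apply_eq, of_apply]
    split_ifs
    · exact hf _ _
    · exact hf _ _
  · simp only [toe, blockDiagonal'_apply_ne _ _ _ h]
    exact contDiffAt_const

noncomputable def Phi (r : ℕ) (m : Fin r → ℕ) (t : Par r m) : Sym2 (Fin 32) → ℝ := fun s =>
  (inv ((toe t.1)⁻¹ * toe t.2) ((toe t.1)⁻¹ * (toe t.2)ᴴ) (ell s.out.1) (ell s.out.2)).re

theorem dim_Phi (r : ℕ) (m : Fin r → ℕ) (hm : ∑ i, m i = 2 * 32) :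
    dimH (Phi r m '' {t | (toe t.1).det ≠ 0}) ≤ 512 := by
  refine le_trans (dimH_image_le_of_locally_lipschitzOn fun x hx => ?_) ?_
  · have : ContDiffAt ℝ 1 (Phi r m) x := by
      refine contDiffAt_pi.2 fun s => ?_
      have h1 : CD (fun t : Par r m => toe t.1) x := cd_toe fun a z => by fun_prop
      have h2 : CD (fun t : Par r m => toe t.2) x := cd_toe fun a z => by fun_prop
      have h3 : CD (fun t : Par r m => (toe t.2)ᴴ) x := fun i j => cd_star (h2 j i)
      exact Complex.reCLM.contDiff.contDiffAt.comp x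
        (((h1.minv hx).mul h2).inv ((h1.minv hx).mul h3) _ _)
    obtain ⟨K, t, ht, h⟩ := this.exists_lipschitzOnWith
    exact ⟨K, t, mem_nhdsWithin_of_mem_nhds ht, h⟩
  · refine le_trans (dimH_mono (subset_univ _)) ?_
    rw [Real.dimH_univ_eq_finrank]
    have h1 : Module.finrank ℝ (Par r m) = 512 := by
      simp [Module.finrank_prod, Module.finrank_pi_fintype, hm]
    rw [h1]
    norm_num

theorem dense_Phi : Dense (⋃ z : {z : Σ r : ℕ, (Fin r → ℕ) // ∑ i, z.2 i = 2 * 32},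
    Phi z.1.1 z.1.2 '' {t | (toe t.1).det ≠ 0})ᶜ := by
  apply dense_compl_of_dimH_lt_finrank
  rw [dimH_iUnion]
  refine lt_of_le_of_lt (iSup_le fun z => dim_Phi _ _ z.2) ?_
  have h2 : Module.finrank ℝ (Sym2 (Fin 32) → ℝ) = 528 := by
    simp [Sym2.card]
    rfl
  rw [h2]
  norm_num

theorem gram {m : ℕ} (w : ℝ → ℝ) (hw : Continuous w) (hp : ∀ t, 0 < w t) (v : Fin m → ℂ)
    (h : ∀ j : Fin m, ∑ k : Fin m, (∫ t in (0:ℝ)..(2 * Real.pi),
      Complex.exp ((((k : ℕ) : ℂ) - ((j : ℕ) : ℂ)) * (t : ℂ) * Complex.I) / (w t : ℂ)) * v k = 0) :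
    v = 0 := by
  set p : ℂ[X] := ∑ k : Fin m, monomial k (v k) with hpdef
  have hw' : ∀ t, (w t : ℂ) ≠ 0 := fun t => by exact_mod_cast (hp t).ne'
  have hc : ∀ j k : Fin m, Continuous fun t : ℝ =>
      Complex.exp ((((k : ℕ) : ℂ) - ((j : ℕ) : ℂ)) * (t : ℂ) * Complex.I) / (w t : ℂ) := by
    intro j k
    exact Continuous.div (by fun_prop) (by fun_prop) hw'
  have e1 : ∫ t in (0:ℝ)..(2 * Real.pi),
      ((Complex.normSq (p.eval (Complex.exp (t * Complex.I))) / w t : ℝ) : ℂ) = 0 := by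
    have e2 : ∀ t : ℝ, ((Complex.normSq (p.eval (Complex.exp (t * Complex.I))) / w t : ℝ) : ℂ) =
        ∑ j : Fin m, ∑ k : Fin m, starRingEnd ℂ (v j) *
          (Complex.exp ((((k : ℕ) : ℂ) - ((j : ℕ) : ℂ)) * (t : ℂ) * Complex.I) / (w t : ℂ) * v k) := by
      intro t
      push_cast
      rw [Complex.normSq_eq_conj_mul_self, hpdef, eval_finsetSum, map_sum, Finset.sum_mul_sum,
        Finset.sum_div]
      refine Finset.sum_congr rfl fun j _ => ?_
      rw [Finset.sum_div]
      refine Finset.sum_congr rfl fun k _ => ?_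
      rw [eval_monomial, eval_monomial, map_mul, ← Complex.exp_nat_mul, ← Complex.exp_nat_mul,
        ← Complex.exp_conj]
      simp only [map_mul, map_natCast, Complex.conj_ofReal, Complex.conj_I]
      have : Complex.exp ((((k : ℕ) : ℂ) - ((j : ℕ) : ℂ)) * (t : ℂ) * Complex.I) =
          Complex.exp ((j : ℕ) * (t * -Complex.I)) * Complex.exp ((k : ℕ) * (t * Complex.I)) := by
        rw [← Complex.exp_add]
        congr 1
        ring
      rw [this]
      ring
    simp only [e2]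
    rw [intervalIntegral.integral_finsetSum]
    · refine Finset.sum_eq_zero fun j _ => ?_
      rw [intervalIntegral.integral_finsetSum]
      · simp only [intervalIntegral.integral_const_mul, intervalIntegral.integral_mul_const]
        rw [← Finset.mul_sum, h j, mul_zero]
      · intro k _
        exact (continuous_const.mul ((hc j k).mul continuous_const)).intervalIntegrable _ _
    · intro j _
      exact (continuous_finsetSum _ fun k _ =>
        continuous_const.mul ((hc j k).mul continuous_const)).intervalIntegrable _ _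
  rw [intervalIntegral.integral_ofReal, Complex.ofReal_eq_zero] at e1
  have e3 : ∀ t ∈ Icc (0 : ℝ) (2 * Real.pi), p.eval (Complex.exp (t * Complex.I)) = 0 := by
    intro t ht
    by_contra hne
    refine absurd e1 (ne_of_gt (intervalIntegral.integral_pos Real.two_pi_pos ?_ ?_ ⟨t, ht, ?_⟩))
    · refine Continuous.continuousOn (Continuous.div ?_ hw fun t => (hp t).ne')
      exact Complex.continuous_normSq.comp (p.continuous.comp (by fun_prop))
    · exact fun x _ => div_nonneg (Complex.normSq_nonneg _) (hp x).le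
    · exact div_pos (Complex.normSq_pos.2 hne) (hp t)
  have e4 : p = 0 := by
    apply eq_zero_of_infinite_isRoot
    have hpi := Real.pi_gt_three
    have hi : InjOn (fun t : ℝ => Complex.exp (t * Complex.I)) (Icc 0 1) := by
      intro x hx y hy hxy
      refine Circle.exp_injOn_Icc (a := 0) (b := 1) (by linarith) hx hy (Subtype.ext ?_)
      simpa using hxy
    refine ((Set.Icc_infinite zero_lt_one).image hi).mono ?_
    rintro _ ⟨t, ht, rfl⟩
    exact e3 t ⟨ht.1, by linarith [ht.2]⟩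
  funext k
  have := congrArg (fun q => coeff q k) e4
  simp only [hpdef, finsetSum_coeff, coeff_monomial, coeff_zero] at this
  rw [Finset.sum_eq_single k] at this
  · simpa using this
  · intro j _ hj
    exact if_neg fun h => hj (Fin.ext h)
  · simp

theorem main : ∃ A : Matrix (Fin 32) (Fin 32) ℂ, ¬
    ∃ (r : ℕ) (m : Fin r → ℕ) (a : (i : Fin r) → Fin (m i) → ℂ) (φ : Fin r → ℝ → ℂ)
      (S : Matrix (Fin 32 ⊕ Fin 32) (Σ i : Fin r, Fin (m i)) ℂ),
      ∑ i, m i = 2 * 32 ∧
      (∀ i j, ‖a i j‖ < 1) ∧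
      (∀ i, Continuous (φ i)) ∧
      Matrix.conjTranspose S * S = Matrix.blockDiagonal' (fun i => Matrix.of (fun (j k : Fin (m i)) =>
          ∫ t in (0:ℝ)..(2 * Real.pi),
            Complex.exp ((((k : ℕ) : ℂ) - ((j : ℕ) : ℂ)) * (t : ℂ) * Complex.I) /
              ((Complex.normSq (∏ l : Fin (m i),
                  (1 - starRingEnd ℂ (a i l) * Complex.exp ((t : ℂ) * Complex.I))) : ℝ) : ℂ))) ∧
      Matrix.conjTranspose S * Matrix.fromBlocks A 0 0 (Matrix.transpose A) * S =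
        Matrix.blockDiagonal' (fun i => Matrix.of (fun (j k : Fin (m i)) =>
          ∫ t in (0:ℝ)..(2 * Real.pi),
            φ i t * Complex.exp ((((k : ℕ) : ℂ) - ((j : ℕ) : ℂ)) * (t : ℂ) * Complex.I) /
              ((Complex.normSq (∏ l : Fin (m i),
                  (1 - starRingEnd ℂ (a i l) * Complex.exp ((t : ℂ) * Complex.I))) : ℝ) : ℂ))) := by
  have hO : IsOpen (Set.pi univ fun _ : Sym2 (Fin 32) => Ioi (0 : ℝ)) :=
    isOpen_set_pi finite_univ fun _ _ => isOpen_Ioi
  obtain ⟨β, hβ, hβ'⟩ := dense_Phi.inter_open_nonempty _ hO ⟨fun _ => 1, fun _ _ => mem_Ioi.2 zero_lt_one⟩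
  set B : Fin 32 → Fin 32 → ℝ := fun i j => Real.sqrt (β s(i, j) / 2) with hB
  have hs : ∀ i j, B i j = B j i := fun i j => by simp only [hB, Sym2.eq_swap]
  refine ⟨MB B, ?_⟩
  rintro ⟨r, m, a, φ, S, hm, ha, -, hG, hT⟩
  set w : Fin r → ℝ → ℝ := fun i t => Complex.normSq (∏ l : Fin (m i),
    (1 - starRingEnd ℂ (a i l) * Complex.exp ((t : ℂ) * Complex.I))) with hw
  obtain ⟨t1, h1⟩ := toe_ex (m := m) fun i z => ∫ t in (0:ℝ)..(2 * Real.pi),
    Complex.exp (z * (t : ℂ) * Complex.I) / (w i t : ℂ)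
  obtain ⟨t2, h2⟩ := toe_ex (m := m) fun i z => ∫ t in (0:ℝ)..(2 * Real.pi),
    φ i t * Complex.exp (z * (t : ℂ) * Complex.I) / (w i t : ℂ)
  have hdet : (toe t1).det ≠ 0 := by
    intro h0
    obtain ⟨v, hv, hv0⟩ := Matrix.exists_mulVec_eq_zero_iff.2 h0
    apply hv
    funext z
    obtain ⟨i, j⟩ := z
    have := gram (w i) ?_ ?_ (fun k => v ⟨i, k⟩) ?_
    · exact congrFun this j
    · exact Complex.continuous_normSq.comp (by fun_prop)
    · intro t
      refine Complex.normSq_pos.2 (Finset.prod_ne_zero_iff.2 fun l _ h3 => ?_)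
      have h4 := congrArg norm (sub_eq_zero.1 h3)
      rw [norm_one, norm_mul, Complex.norm_conj, Complex.norm_exp_ofReal_mul_I, mul_one] at h4
      exact (ha i l).ne' h4
    · intro j
      have := congrFun hv0 ⟨i, j⟩
      rw [h1] at this
      simp only [mulVec, dotProduct, Fintype.sum_sigma, Pi.zero_apply] at this
      rw [Finset.sum_eq_single i] at this
      · simpa only [blockDiagonal'_apply_eq, of_apply] using this
      · intro i' _ hi
        simp only [blockDiagonal'_apply_ne _ _ _ hi.symm, zero_mul, Finset.sum_const_zero]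
      · simp
  have g1 : Sᴴ * S = toe t1 := hG.trans h1.symm
  have g2 : Sᴴ * fromBlocks (MB B) 0 0 (MB B)ᵀ * S = toe t2 := hT.trans h2.symm
  have g3 : ((toe t1)⁻¹ * Sᴴ) * S = 1 := by
    rw [Matrix.mul_assoc, g1, Matrix.nonsing_inv_mul _ (isUnit_iff_ne_zero.2 hdet)]
  have g4 : S * ((toe t1)⁻¹ * Sᴴ) = 1 :=
    (mul_eq_one_comm_of_card_eq _ _ _ (by simp [hm])).1 g3
  apply hβ'
  refine mem_iUnion.2 ⟨⟨⟨r, m⟩, hm⟩, (t1, t2), hdet, ?_⟩
  funext s
  have := inv_conj _ _ g3 g4 (fromBlocks (MB B) 0 0 (MB B)ᵀ) (fromBlocks (MB B) 0 0 (MB B)ᵀ)ᴴ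
    (ell s.out.1) (ell s.out.2)
  rw [inv_MB B hs] at this
  unfold Phi
  have e1 : (toe t1)⁻¹ * toe t2 = (toe t1)⁻¹ * Sᴴ * fromBlocks (MB B) 0 0 (MB B)ᵀ * S := by
    rw [← g2]
    simp only [Matrix.mul_assoc]
  have e2 : (toe t1)⁻¹ * (toe t2)ᴴ = (toe t1)⁻¹ * Sᴴ * (fromBlocks (MB B) 0 0 (MB B)ᵀ)ᴴ * S := by
    rw [← g2]
    simp only [conjTranspose_mul, conjTranspose_conjTranspose, Matrix.mul_assoc]
  simp only
  rw [e1, e2, this]
  have e3 : s(s.out.1, s.out.2) = s := s.out_eq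
  have e4 : B s.out.1 s.out.2 ^ 2 = β s / 2 := by
    simp only [hB, e3]
    exact Real.sq_sqrt (by have : 0 < β s := hβ s trivial; positivity)
  rw [← Complex.ofReal_pow, e4]
  simp
  ring

end Pool.Agent.H.MP_f70052_an
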